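import Pool.Agent.Helper42.KS.Goals

set_option autoImplicit false

/-! # Packet ONE (2614): one dimensional multipliers on the major arcs -/

namespace Pool.Agent.Helper42.KS.PkONE

open Finset

/-! ### the exponential -/

theorem norm_ee (t : ℝ) : ‖ee t‖ = 1 := by
  unfold ee
  exact Complex.norm_exp_ofReal_mul_I _

theorem ee_add (s t : ℝ) : ee (s + t) = ee s * ee t := by
  unfold ee
  rw [← Complex.exp_add]
  congr 1
  push_cast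
  ring

theorem ee_int (n : ℤ) : ee (n : ℝ) = 1 := by
  unfold ee
  have : ((2 * Real.pi * (n : ℝ) : ℝ) : ℂ) * Complex.I = n * (2 * Real.pi * Complex.I) := by
    push_cast
    ring
  rw [this]
  exact Complex.exp_int_mul_two_pi_mul_I n

theorem ee_zero : ee 0 = 1 := by
  have := ee_int 0
  simpa using this

theorem ee_add_int (t : ℝ) (n : ℤ) : ee (t + n) = ee t := by
  rw [ee_add, ee_int, mul_one]

theorem ee_mul_nat (t : ℝ) (n : ℕ) : ee (t * n) = ee t ^ n := by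
  induction n with
  | zero => simp [ee_zero]
  | succ n ih =>
    rw [pow_succ, ← ih, ← ee_add]
    congr 1
    push_cast
    ring

theorem ee_eq (t : ℝ) : ee t = Complex.exp (Complex.I * ((2 * Real.pi * t : ℝ) : ℂ)) := by
  unfold ee
  rw [mul_comm]

theorem norm_ee_sub_one_le (t : ℝ) : ‖ee t - 1‖ ≤ 2 * Real.pi * |t| := by
  rw [ee_eq]
  refine (Real.norm_exp_I_mul_ofReal_sub_one_le).trans ?_
  rw [Real.norm_eq_abs, abs_mul, abs_of_pos (by positivity : (0 : ℝ) < 2 * Real.pi)]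

theorem le_norm_ee_sub_one {t : ℝ} (ht : |t| ≤ 1 / 2) : 4 * |t| ≤ ‖ee t - 1‖ := by
  rw [ee_eq, Complex.norm_exp_I_mul_ofReal_sub_one, norm_mul]
  have h1 : 2 * Real.pi * t / 2 = Real.pi * t := by ring
  rw [h1]
  have h2 : |Real.sin (Real.pi * t)| = Real.sin (Real.pi * |t|) := by
    rcases le_total 0 t with h | h
    · rw [abs_of_nonneg h]
      rw [abs_of_nonneg]
      apply Real.sin_nonneg_of_nonneg_of_le_pi
      · positivity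
      · rw [abs_of_nonneg h] at ht
        nlinarith [Real.pi_pos]
    · rw [abs_of_nonpos h]
      have : Real.sin (Real.pi * -t) = - Real.sin (Real.pi * t) := by
        rw [mul_neg, Real.sin_neg]
      rw [this, abs_of_nonpos]
      have h3 : 0 ≤ Real.sin (Real.pi * -t) := by
        apply Real.sin_nonneg_of_nonneg_of_le_pi
        · have : 0 ≤ -t := by linarith
          positivity
        · rw [abs_of_nonpos h] at ht
          nlinarith [Real.pi_pos]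
      linarith
  have h3 : 2 / Real.pi * (Real.pi * |t|) ≤ Real.sin (Real.pi * |t|) := by
    apply Real.mul_le_sin
    · positivity
    · nlinarith [Real.pi_pos]
  have h4 : 2 / Real.pi * (Real.pi * |t|) = 2 * |t| := by
    field_simp
  rw [Real.norm_eq_abs, Real.norm_eq_abs, h2, abs_of_pos (by norm_num : (0 : ℝ) < 2)]
  linarith

/-- geometric sum -/
theorem geom_bound {t : ℝ} (ht : |t| ≤ 1 / 2) (L : ℕ) :
    ‖∑ τ ∈ range L, ee (t * τ)‖ * (2 * |t|) ≤ 1 := by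
  have h1 : (∑ τ ∈ range L, ee (t * τ)) * (ee t - 1) = ee t ^ L - 1 := by
    rw [← geom_sum_mul]
    congr 1
    exact Finset.sum_congr rfl fun τ _ => ee_mul_nat t τ
  have h2 : ‖(∑ τ ∈ range L, ee (t * τ))‖ * ‖ee t - 1‖ ≤ 2 := by
    rw [← norm_mul, h1]
    refine (norm_sub_le _ _).trans ?_
    rw [norm_pow, norm_ee, one_pow, norm_one]
    norm_num
  have h3 := le_norm_ee_sub_one ht
  have h4 : ‖(∑ τ ∈ range L, ee (t * τ))‖ * (4 * |t|) ≤ 2 :=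
    (mul_le_mul_of_nonneg_left h3 (norm_nonneg _)).trans h2
  linarith

/-! ### the comparison multiplier -/

theorem sum_range_mul (f : ℕ → ℂ) (q L : ℕ) :
    ∑ y ∈ range (q * L), f y = ∑ τ ∈ range L, ∑ c ∈ range q, f (q * τ + c) := by
  induction L with
  | zero => simp
  | succ L ih =>
    rw [Nat.mul_succ, Finset.sum_range_add, ih, Finset.sum_range_succ]

/-- the factor DL -/
noncomputable def DL (L : ℕ) (t : ℝ) : ℂ := (L : ℂ)⁻¹ * ∑ τ ∈ range L, ee (t * τ)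

theorem vv_eq (k R q : ℕ) (a b : ℤ) (B θ : ℝ) (hq : 1 ≤ q) :
    vv k R q a B (b / q + θ) = VV k B 0 * (pq k a q (b / q + θ) * DL (R / q) (q * θ)) := by
  have hq0 : (q : ℂ) ≠ 0 := by
    have : q ≠ 0 := by omega
    exact_mod_cast this
  have hqR : (q : ℝ) ≠ 0 := by
    have : q ≠ 0 := by omega
    exact_mod_cast this
  unfold vv pq DL fS
  congr 1
  rw [sum_range_mul]
  have h1 : ∀ τ ∈ range (R / q), ∑ c ∈ range q,
      ee (a / q * ((q * τ + c : ℕ) : ℝ) ^ k + (b / q + θ) * ((q * τ + c : ℕ) : ℝ)) =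
      (∑ c ∈ range q, ee (a * (c : ℝ) ^ k / q + (b / q + θ) * c)) * ee (q * θ * τ) := by
    intro τ _
    rw [Finset.sum_mul]
    refine Finset.sum_congr rfl fun c _ => ?_
    rw [← ee_add]
    obtain ⟨m, hm⟩ : (q : ℤ) ∣ ((q : ℤ) * τ + c) ^ k - (c : ℤ) ^ k := by
      have h := sub_dvd_pow_sub_pow ((q : ℤ) * τ + c) (c : ℤ) k
      refine dvd_trans ?_ h
      exact ⟨τ, by ring⟩
    have hm' : ((q : ℝ) * τ + c) ^ k = (c : ℝ) ^ k + q * m := by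
      have : (((q : ℤ) * τ + c) ^ k : ℤ) = (c : ℤ) ^ k + q * m := by linarith
      exact_mod_cast this
    refine Eq.trans ?_ (ee_add_int _ (a * m + b * τ))
    congr 1
    push_cast
    rw [hm']
    field_simp
    ring
  rw [Finset.sum_congr rfl h1, ← Finset.mul_sum]
  push_cast
  rw [mul_inv]
  ring

theorem norm_DL_le_one (L : ℕ) (t : ℝ) : ‖DL L t‖ ≤ 1 := by
  unfold DL
  rcases Nat.eq_zero_or_pos L with rfl | hL
  · simp
  rw [norm_mul, norm_inv, Complex.norm_natCast]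
  have h1 : ‖∑ τ ∈ range L, ee (t * τ)‖ ≤ L := by
    refine (norm_sum_le _ _).trans ?_
    simp [norm_ee]
  have h2 : (0 : ℝ) < L := by exact_mod_cast hL
  calc (L : ℝ)⁻¹ * ‖∑ τ ∈ range L, ee (t * τ)‖ ≤ (L : ℝ)⁻¹ * L :=
        mul_le_mul_of_nonneg_left h1 (by positivity)
    _ = 1 := inv_mul_cancel₀ h2.ne'

theorem norm_one_sub_DL (L : ℕ) (hL : 1 ≤ L) (t : ℝ) : ‖1 - DL L t‖ ≤ 2 * Real.pi * (L * |t|) := by
  have hL0 : (0 : ℝ) < L := by exact_mod_cast hL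
  have hLC : (L : ℂ) ≠ 0 := by
    have : L ≠ 0 := by omega
    exact_mod_cast this
  have h1 : 1 - DL L t = (L : ℂ)⁻¹ * ∑ τ ∈ range L, (1 - ee (t * τ)) := by
    unfold DL
    rw [Finset.sum_sub_distrib, mul_sub]
    simp [hLC]
  rw [h1, norm_mul, norm_inv, Complex.norm_natCast]
  have h2 : ‖∑ τ ∈ range L, (1 - ee (t * τ))‖ ≤ L * (2 * Real.pi * (L * |t|)) := by
    refine (norm_sum_le _ _).trans ?_
    have : ∀ τ ∈ range L, ‖1 - ee (t * τ)‖ ≤ 2 * Real.pi * (L * |t|) := by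
      intro τ hτ
      rw [norm_sub_rev]
      refine (norm_ee_sub_one_le _).trans ?_
      have hτ' : (τ : ℝ) ≤ L := by exact_mod_cast (mem_range.1 hτ).le
      rw [abs_mul, Nat.abs_cast, mul_comm |t|]
      have := abs_nonneg t
      have := Real.pi_pos
      gcongr
    refine (Finset.sum_le_sum this).trans ?_
    simp
  calc (L : ℝ)⁻¹ * ‖∑ τ ∈ range L, (1 - ee (t * τ))‖
      ≤ (L : ℝ)⁻¹ * (L * (2 * Real.pi * (L * |t|))) :=
        mul_le_mul_of_nonneg_left h2 (by positivity)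
    _ = 2 * Real.pi * (L * |t|) := by
        rw [← mul_assoc, inv_mul_cancel₀ hL0.ne', one_mul]

theorem norm_DL_le_inv (L : ℕ) (hL : 1 ≤ L) {t : ℝ} (ht : |t| ≤ 1 / 2) :
    ‖DL L t‖ * (2 * L * |t|) ≤ 1 := by
  have hL0 : (0 : ℝ) < L := by exact_mod_cast hL
  unfold DL
  rw [norm_mul, norm_inv, Complex.norm_natCast]
  have h := geom_bound ht L
  calc (L : ℝ)⁻¹ * ‖∑ τ ∈ range L, ee (t * τ)‖ * (2 * L * |t|)
      = (‖∑ τ ∈ range L, ee (t * τ)‖ * (2 * |t|)) := by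
        field_simp
    _ ≤ 1 := h

theorem norm_pq_sub_GG (k q : ℕ) (a b : ℤ) (θ : ℝ) (hq : 1 ≤ q) :
    ‖pq k a q (b / q + θ) - GG k a q b‖ ≤ 2 * Real.pi * (q * |θ|) := by
  have hq0 : (0 : ℝ) < q := by exact_mod_cast hq
  have h1 : pq k a q (b / q + θ) - GG k a q b = (q : ℂ)⁻¹ * ∑ y ∈ range q,
      (ee ((a * (y : ℝ) ^ k + b * y) / q) * (ee (θ * y) - 1)) := by
    unfold pq GG
    rw [← mul_sub, ← Finset.sum_sub_distrib]
    congr 1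
    refine Finset.sum_congr rfl fun y _ => ?_
    rw [mul_sub, mul_one, ← ee_add]
    congr 2
    ring
  rw [h1, norm_mul, norm_inv, Complex.norm_natCast]
  have h2 : ‖∑ y ∈ range q, (ee ((a * (y : ℝ) ^ k + b * y) / q) * (ee (θ * y) - 1))‖ ≤
      q * (2 * Real.pi * (q * |θ|)) := by
    refine (norm_sum_le _ _).trans ?_
    have : ∀ y ∈ range q, ‖ee ((a * (y : ℝ) ^ k + b * y) / q) * (ee (θ * y) - 1)‖ ≤
        2 * Real.pi * (q * |θ|) := by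
      intro y hy
      rw [norm_mul, norm_ee, one_mul]
      refine (norm_ee_sub_one_le _).trans ?_
      have hy' : (y : ℝ) ≤ q := by exact_mod_cast (mem_range.1 hy).le
      rw [abs_mul, Nat.abs_cast, mul_comm |θ|]
      have := abs_nonneg θ
      have := Real.pi_pos
      gcongr
    refine (Finset.sum_le_sum this).trans ?_
    simp
  calc (q : ℝ)⁻¹ * ‖∑ y ∈ range q, (ee ((a * (y : ℝ) ^ k + b * y) / q) * (ee (θ * y) - 1))‖
      ≤ (q : ℝ)⁻¹ * (q * (2 * Real.pi * (q * |θ|))) :=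
        mul_le_mul_of_nonneg_left h2 (by positivity)
    _ = 2 * Real.pi * (q * |θ|) := by
        rw [← mul_assoc, inv_mul_cancel₀ hq0.ne', one_mul]

/-! ### real inequalities -/

theorem interp {z x y c : ℝ} (hz : 0 ≤ z) (hx : z ≤ x) (hy : z ≤ y) (hc0 : 0 ≤ c) (hc1 : c ≤ 1) :
    z ≤ x ^ (1 - c) * y ^ c := by
  rcases hz.eq_or_lt with h | h
  · rw [← h]
    have : 0 ≤ x := hz.trans hx
    have : 0 ≤ y := hz.trans hy
    positivity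
  · calc z = z ^ (1 - c) * z ^ c := by
          rw [← Real.rpow_add h]
          simp
      _ ≤ x ^ (1 - c) * y ^ c := by
          apply mul_le_mul
          · exact Real.rpow_le_rpow hz hx (by linarith)
          · exact Real.rpow_le_rpow hz hy hc0
          · positivity
          · have : 0 ≤ x := hz.trans hx
            positivity

theorem rpow_le_one_pow {M t : ℝ} (hM : 1 ≤ M) (ht : t ≤ 1) : M ^ t ≤ M := by
  calc M ^ t ≤ M ^ (1 : ℝ) := Real.rpow_le_rpow_of_exponent_le hM ht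
    _ = M := Real.rpow_one M

/-! ### the abstract estimates -/

theorem Alow {κ ε r Q b1 : ℝ} (hε : 0 < ε) (κ0 : 0 < κ) (κ1 : κ ≤ 1 / 3)
    (r1 : 1 ≤ r) (Q1 : 1 ≤ Q) (hb11 : 1 ≤ b1)
    (hQr : Q ≤ r ^ (1 / 16 : ℝ)) (hbr : b1 ≤ 2 * r ^ (1 / 16 : ℝ)) :
    (1 / 2) * r ^ (-(1 / 24) : ℝ) ≤ Q ^ (-κ + ε) * b1 ^ (-κ + ε) := by
  have r0 : 0 < r := by linarith
  have Q0 : 0 < Q := by linarith
  have hb0 : 0 < b1 := by linarith
  have g1 : (r ^ (1 / 16 : ℝ)) ^ (-κ) ≤ Q ^ (-κ + ε) := by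
    calc (r ^ (1 / 16 : ℝ)) ^ (-κ) ≤ Q ^ (-κ) :=
          Real.rpow_le_rpow_of_nonpos Q0 hQr (by linarith)
      _ ≤ Q ^ (-κ + ε) := Real.rpow_le_rpow_of_exponent_le Q1 (by linarith)
  have g2 : (2 * r ^ (1 / 16 : ℝ)) ^ (-κ) ≤ b1 ^ (-κ + ε) := by
    calc (2 * r ^ (1 / 16 : ℝ)) ^ (-κ) ≤ b1 ^ (-κ) :=
          Real.rpow_le_rpow_of_nonpos hb0 (by linarith) (by linarith)
      _ ≤ b1 ^ (-κ + ε) := Real.rpow_le_rpow_of_exponent_le hb11 (by linarith)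
  have g3 : r ^ (-(1 / 48) : ℝ) ≤ (r ^ (1 / 16 : ℝ)) ^ (-κ) := by
    rw [← Real.rpow_mul r0.le]
    exact Real.rpow_le_rpow_of_exponent_le r1 (by linarith)
  have g4 : (1 / 2) * r ^ (-(1 / 48) : ℝ) ≤ (2 * r ^ (1 / 16 : ℝ)) ^ (-κ) := by
    rw [Real.mul_rpow (by norm_num) (by positivity)]
    have : (1 / 2 : ℝ) ≤ 2 ^ (-κ) := by
      calc (1 / 2 : ℝ) = 2 ^ (-1 : ℝ) := by rw [Real.rpow_neg_one]; norm_num
        _ ≤ 2 ^ (-κ) := Real.rpow_le_rpow_of_exponent_le (by norm_num) (by linarith)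
    exact mul_le_mul this g3 (by positivity) (by positivity)
  calc (1 / 2) * r ^ (-(1 / 24) : ℝ) = r ^ (-(1 / 48) : ℝ) * ((1 / 2) * r ^ (-(1 / 48) : ℝ)) := by
        rw [mul_left_comm, ← Real.rpow_add r0]
        norm_num
    _ ≤ Q ^ (-κ + ε) * b1 ^ (-κ + ε) := by
        apply mul_le_mul (g3.trans g1) (g4.trans g2) (by positivity) (by positivity)

theorem Alow2 {c r A : ℝ} (c5 : c ≤ 1 / 5) (r1 : 1 ≤ r) (hA : 0 < A)
    (h : (1 / 2) * r ^ (-(1 / 24) : ℝ) ≤ A) : r ^ (-(1 / 4) : ℝ) ≤ 2 * A * r ^ (-c) := by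
  have r0 : 0 < r := by linarith
  calc r ^ (-(1 / 4) : ℝ) = r ^ (-(1 / 24) : ℝ) * r ^ (-(5 / 24) : ℝ) := by
        rw [← Real.rpow_add r0]
        norm_num
    _ ≤ (2 * A) * r ^ (-c) := by
        apply mul_le_mul
        · linarith
        · exact Real.rpow_le_rpow_of_exponent_le r1 (by linarith)
        · positivity
        · positivity

theorem t1 {κ ε c M Q b1 x : ℝ} {G W W0 : ℂ} (M1 : 1 ≤ M) (κ0 : 0 < κ) (κ1 : κ ≤ 1 / 3)
    (c0 : 0 < c) (cε : c ≤ ε / 2) (c5 : c ≤ 1 / 5) (Q1 : 1 ≤ Q) (hb11 : 1 ≤ b1) (x0 : 0 ≤ x)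
    (bG' : ‖G‖ ≤ M * Q ^ (-κ + ε)) (bW : ‖W‖ ≤ M * b1 ^ (-κ)) (bW0 : ‖W0‖ ≤ M * b1 ^ (-κ))
    (z1 : ‖W - W0‖ ≤ M * x) :
    ‖G * (W - W0)‖ ≤ 2 * M ^ 3 * (Q ^ (-κ + ε) * b1 ^ (-κ + ε)) * x ^ c := by
  have M0 : 0 < M := by linarith
  have Q0 : 0 < Q := by linarith
  have hb0 : 0 < b1 := by linarith
  have hxc : 0 ≤ x ^ c := by positivity
  have z2 : ‖W - W0‖ ≤ 2 * M * b1 ^ (-κ) := by
    refine (norm_sub_le _ _).trans ?_
    linarith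
  have z3 := interp (norm_nonneg _) z2 z1 c0.le (by linarith)
  have z4 : (2 * M * b1 ^ (-κ)) ^ (1 - c) ≤ 2 * M * b1 ^ (-κ + ε) := by
    rw [Real.mul_rpow (by positivity) (by positivity), ← Real.rpow_mul hb0.le]
    apply mul_le_mul
    · exact rpow_le_one_pow (by linarith) (by linarith)
    · apply Real.rpow_le_rpow_of_exponent_le hb11
      nlinarith
    · positivity
    · positivity
  have z5 : (M * x) ^ c ≤ M * x ^ c := by
    rw [Real.mul_rpow M0.le x0]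
    apply mul_le_mul_of_nonneg_right _ hxc
    exact rpow_le_one_pow M1 (by linarith)
  rw [norm_mul]
  calc ‖G‖ * ‖W - W0‖ ≤ (M * Q ^ (-κ + ε)) * ((2 * M * b1 ^ (-κ + ε)) * (M * x ^ c)) := by
        apply mul_le_mul bG' (z3.trans (mul_le_mul z4 z5 (by positivity) (by positivity)))
          (norm_nonneg _) (by positivity)
    _ = 2 * M ^ 3 * (Q ^ (-κ + ε) * b1 ^ (-κ + ε)) * x ^ c := by ring

theorem t2 {κ ε c M r Q b1 t : ℝ} {G p W0 : ℂ} (M1 : 1 ≤ M) (κ0 : 0 < κ) (κ1 : κ ≤ 1 / 3)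
    (c0 : 0 < c) (cε : c ≤ ε / 2) (c5 : c ≤ 1 / 5) (r1 : 1 ≤ r) (Q1 : 1 ≤ Q) (hb11 : 1 ≤ b1)
    (ht : 0 ≤ t) (hQr : Q ≤ r ^ (1 / 16 : ℝ))
    (bG : ‖G‖ ≤ M * Q ^ (-κ + ε / 2)) (bp : ‖p‖ ≤ M * Q ^ (-κ + ε / 2))
    (bW0' : ‖W0‖ ≤ M * b1 ^ (-κ + ε)) (z1 : ‖G - p‖ ≤ 8 * (Q * t)) :
    ‖W0 * (G - p)‖ ≤ 16 * M ^ 3 * (Q ^ (-κ + ε) * b1 ^ (-κ + ε)) * (r * t) ^ c := by
  have M0 : 0 < M := by linarith
  have r0 : 0 < r := by linarith
  have Q0 : 0 < Q := by linarith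
  have hb0 : 0 < b1 := by linarith
  have z2 : ‖G - p‖ ≤ 2 * M * Q ^ (-κ + ε / 2) := by
    refine (norm_sub_le _ _).trans ?_
    linarith
  have z3 := interp (norm_nonneg _) z2 z1 c0.le (by linarith)
  have z4 : (2 * M * Q ^ (-κ + ε / 2)) ^ (1 - c) ≤ 2 * M * Q ^ (-κ + ε + c * κ) := by
    rw [Real.mul_rpow (by positivity) (by positivity), ← Real.rpow_mul Q0.le]
    apply mul_le_mul
    · exact rpow_le_one_pow (by linarith) (by linarith)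
    · apply Real.rpow_le_rpow_of_exponent_le Q1
      nlinarith
    · positivity
    · positivity
  have z5 : (8 * (Q * t)) ^ c ≤ 8 * (Q ^ c * t ^ c) := by
    rw [Real.mul_rpow (by norm_num) (by positivity), Real.mul_rpow Q0.le ht]
    apply mul_le_mul_of_nonneg_right _ (by positivity)
    exact rpow_le_one_pow (by norm_num) (by linarith)
  have z6 : Q ^ (c * κ) * Q ^ c ≤ r ^ c := by
    rw [← Real.rpow_add Q0]
    calc Q ^ (c * κ + c) ≤ (r ^ (1 / 16 : ℝ)) ^ (c * κ + c) :=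
          Real.rpow_le_rpow Q0.le hQr (by positivity)
      _ = r ^ (1 / 16 * (c * κ + c)) := by rw [← Real.rpow_mul r0.le]
      _ ≤ r ^ c := by
          apply Real.rpow_le_rpow_of_exponent_le r1
          nlinarith
  have z7 : ‖G - p‖ ≤ 16 * M * Q ^ (-κ + ε) * (r * t) ^ c := by
    calc ‖G - p‖ ≤ (2 * M * Q ^ (-κ + ε + c * κ)) * (8 * (Q ^ c * t ^ c)) :=
          z3.trans (mul_le_mul z4 z5 (by positivity) (by positivity))
      _ = 16 * M * Q ^ (-κ + ε) * ((Q ^ (c * κ) * Q ^ c) * t ^ c) := by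
          rw [Real.rpow_add Q0 (-κ + ε)]
          ring
      _ ≤ 16 * M * Q ^ (-κ + ε) * (r ^ c * t ^ c) := by
          apply mul_le_mul_of_nonneg_left _ (by positivity)
          exact mul_le_mul_of_nonneg_right z6 (by positivity)
      _ = 16 * M * Q ^ (-κ + ε) * (r * t) ^ c := by
          rw [Real.mul_rpow r0.le ht]
  rw [norm_mul]
  have M3 : M ^ 2 ≤ M ^ 3 := pow_le_pow_right₀ M1 (by norm_num)
  calc ‖W0‖ * ‖G - p‖ ≤ (M * b1 ^ (-κ + ε)) * (16 * M * Q ^ (-κ + ε) * (r * t) ^ c) := by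
        apply mul_le_mul bW0' z7 (norm_nonneg _) (by positivity)
    _ = M ^ 2 * (16 * (Q ^ (-κ + ε) * b1 ^ (-κ + ε)) * (r * t) ^ c) := by ring
    _ ≤ M ^ 3 * (16 * (Q ^ (-κ + ε) * b1 ^ (-κ + ε)) * (r * t) ^ c) :=
        mul_le_mul_of_nonneg_right M3 (by positivity)
    _ = 16 * M ^ 3 * (Q ^ (-κ + ε) * b1 ^ (-κ + ε)) * (r * t) ^ c := by ring

theorem t3 {κ ε c M Q b1 x : ℝ} {p D W0 : ℂ} (M1 : 1 ≤ M)
    (c0 : 0 < c) (c5 : c ≤ 1 / 5) (Q1 : 1 ≤ Q) (hb11 : 1 ≤ b1) (x0 : 0 ≤ x)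
    (bp' : ‖p‖ ≤ M * Q ^ (-κ + ε)) (bW0' : ‖W0‖ ≤ M * b1 ^ (-κ + ε)) (bD : ‖D‖ ≤ 1)
    (zD : ‖1 - D‖ ≤ 8 * x) :
    ‖W0 * (p * (1 - D))‖ ≤ 8 * M ^ 3 * (Q ^ (-κ + ε) * b1 ^ (-κ + ε)) * x ^ c := by
  have M0 : 0 < M := by linarith
  have Q0 : 0 < Q := by linarith
  have hb0 : 0 < b1 := by linarith
  have z1 : ‖1 - D‖ ≤ 8 * x ^ c := by
    rcases le_total x 1 with h | h
    · have e3 : x ≤ x ^ c := by
        calc x = x ^ (1 : ℝ) := (Real.rpow_one x).symm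
          _ ≤ x ^ c := Real.rpow_le_rpow_of_exponent_ge' x0 h c0.le (by linarith)
      linarith
    · have e1 : 1 ≤ x ^ c := Real.one_le_rpow h c0.le
      calc ‖1 - D‖ ≤ ‖(1 : ℂ)‖ + ‖D‖ := norm_sub_le _ _
        _ ≤ 1 + 1 := by rw [norm_one]; linarith
        _ ≤ 8 * x ^ c := by linarith
  have M3 : M ^ 2 ≤ M ^ 3 := pow_le_pow_right₀ M1 (by norm_num)
  rw [norm_mul, norm_mul]
  calc ‖W0‖ * (‖p‖ * ‖1 - D‖)
      ≤ (M * b1 ^ (-κ + ε)) * ((M * Q ^ (-κ + ε)) * (8 * x ^ c)) := by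
        apply mul_le_mul bW0' _ (by positivity) (by positivity)
        exact mul_le_mul bp' z1 (norm_nonneg _) (by positivity)
    _ = M ^ 2 * (8 * (Q ^ (-κ + ε) * b1 ^ (-κ + ε)) * x ^ c) := by ring
    _ ≤ M ^ 3 * (8 * (Q ^ (-κ + ε) * b1 ^ (-κ + ε)) * x ^ c) :=
        mul_le_mul_of_nonneg_right M3 (by positivity)
    _ = 8 * M ^ 3 * (Q ^ (-κ + ε) * b1 ^ (-κ + ε)) * x ^ c := by ring

theorem norm_split (U G W W0 p D : ℂ) :
    ‖U - W0 * (p * D)‖ ≤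
      ‖G * (W - W0)‖ + ‖W0 * (G - p)‖ + ‖W0 * (p * (1 - D))‖ + ‖U - G * W‖ := by
  have hsplit : U - W0 * (p * D) =
      G * (W - W0) + W0 * (G - p) + W0 * (p * (1 - D)) + (U - G * W) := by ring
  rw [hsplit]
  exact (norm_add_le _ _).trans (add_le_add ((norm_add_le _ _).trans
    (add_le_add (norm_add_le _ _) le_rfl)) le_rfl)

theorem norm_split2 (U G W : ℂ) : ‖U‖ ≤ ‖G‖ * ‖W‖ + ‖U - G * W‖ := by
  calc ‖U‖ = ‖G * W + (U - G * W)‖ := by rw [add_sub_cancel]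
    _ ≤ ‖G * W‖ + ‖U - G * W‖ := norm_add_le _ _
    _ = ‖G‖ * ‖W‖ + ‖U - G * W‖ := by rw [norm_mul]

theorem t4 {κ ε c M Q b1 x : ℝ} {G W : ℂ} (M1 : 1 ≤ M) (κ0 : 0 < κ) (κ1 : κ ≤ 1 / 3)
    (c0 : 0 < c) (cε : c ≤ ε / 2) (c5 : c ≤ 1 / 5) (Q1 : 1 ≤ Q) (hb11 : 1 ≤ b1) (x1 : 1 ≤ x)
    (bG' : ‖G‖ ≤ M * Q ^ (-κ + ε)) (bW : ‖W‖ ≤ M * b1 ^ (-κ))
    (zW : ‖W‖ ≤ M * (b1 / (1 + x))) :
    ‖G‖ * ‖W‖ ≤ M ^ 3 * (Q ^ (-κ + ε) * b1 ^ (-κ + ε)) * x ^ (-c) := by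
  have M0 : 0 < M := by linarith
  have Q0 : 0 < Q := by linarith
  have hb0 : 0 < b1 := by linarith
  have xpos : 0 < x := by linarith
  have z1 : ‖W‖ ≤ M * (b1 / x) := by
    refine zW.trans (mul_le_mul_of_nonneg_left ?_ M0.le)
    exact div_le_div_of_nonneg_left hb0.le xpos (by linarith)
  have z3 := interp (norm_nonneg _) bW z1 c0.le (by linarith)
  have z4 : (M * b1 ^ (-κ)) ^ (1 - c) ≤ M * b1 ^ (-κ * (1 - c)) := by
    rw [Real.mul_rpow (by positivity) (by positivity), ← Real.rpow_mul hb0.le]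
    apply mul_le_mul_of_nonneg_right _ (by positivity)
    exact rpow_le_one_pow M1 (by linarith)
  have z5 : (M * (b1 / x)) ^ c ≤ M * (b1 ^ c * x ^ (-c)) := by
    rw [Real.mul_rpow M0.le (by positivity), Real.div_rpow hb0.le xpos.le,
      Real.rpow_neg xpos.le, ← div_eq_mul_inv]
    apply mul_le_mul_of_nonneg_right _ (by positivity)
    exact rpow_le_one_pow M1 (by linarith)
  have z6 : b1 ^ (-κ * (1 - c)) * b1 ^ c ≤ b1 ^ (-κ + ε) := by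
    rw [← Real.rpow_add hb0]
    apply Real.rpow_le_rpow_of_exponent_le hb11
    nlinarith
  have z7 : ‖W‖ ≤ M ^ 2 * b1 ^ (-κ + ε) * x ^ (-c) := by
    calc ‖W‖ ≤ (M * b1 ^ (-κ * (1 - c))) * (M * (b1 ^ c * x ^ (-c))) :=
          z3.trans (mul_le_mul z4 z5 (by positivity) (by positivity))
      _ = M ^ 2 * (b1 ^ (-κ * (1 - c)) * b1 ^ c) * x ^ (-c) := by ring
      _ ≤ M ^ 2 * b1 ^ (-κ + ε) * x ^ (-c) := by
          apply mul_le_mul_of_nonneg_right _ (by positivity)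
          exact mul_le_mul_of_nonneg_left z6 (by positivity)
  calc ‖G‖ * ‖W‖ ≤ (M * Q ^ (-κ + ε)) * (M ^ 2 * b1 ^ (-κ + ε) * x ^ (-c)) :=
        mul_le_mul bG' z7 (norm_nonneg _) (by positivity)
    _ = M ^ 3 * (Q ^ (-κ + ε) * b1 ^ (-κ + ε)) * x ^ (-c) := by ring

theorem bV {κ ε M Q b1 : ℝ} {W0 p D : ℂ} (M1 : 1 ≤ M) (Q1 : 1 ≤ Q) (hb11 : 1 ≤ b1)
    (bp' : ‖p‖ ≤ M * Q ^ (-κ + ε)) (bW0' : ‖W0‖ ≤ M * b1 ^ (-κ + ε)) :
    ‖W0 * (p * D)‖ ≤ M ^ 3 * (Q ^ (-κ + ε) * b1 ^ (-κ + ε)) * ‖D‖ := by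
  have M0 : 0 < M := by linarith
  have Q0 : 0 < Q := by linarith
  have hb0 : 0 < b1 := by linarith
  have M3 : M ^ 2 ≤ M ^ 3 := pow_le_pow_right₀ M1 (by norm_num)
  rw [norm_mul, norm_mul]
  calc ‖W0‖ * (‖p‖ * ‖D‖) ≤ (M * b1 ^ (-κ + ε)) * ((M * Q ^ (-κ + ε)) * ‖D‖) := by
        apply mul_le_mul bW0' _ (by positivity) (by positivity)
        exact mul_le_mul_of_nonneg_right bp' (norm_nonneg _)
    _ = M ^ 2 * ((Q ^ (-κ + ε) * b1 ^ (-κ + ε)) * ‖D‖) := by ring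
    _ ≤ M ^ 3 * ((Q ^ (-κ + ε) * b1 ^ (-κ + ε)) * ‖D‖) :=
        mul_le_mul_of_nonneg_right M3 (by positivity)
    _ = M ^ 3 * (Q ^ (-κ + ε) * b1 ^ (-κ + ε)) * ‖D‖ := by ring

theorem zDi {c x : ℝ} {D : ℂ} (c0 : 0 < c) (c5 : c ≤ 1 / 5) (x1 : 1 ≤ x) (bD : ‖D‖ ≤ 1)
    (h : ‖D‖ * x ≤ 1) : ‖D‖ ≤ x ^ (-c) := by
  have xpos : 0 < x := by linarith
  have e4 : ‖D‖ ≤ x⁻¹ := by
    rw [← one_div, le_div_iff₀ xpos]
    exact h
  have e5 := interp (norm_nonneg _) bD e4 c0.le (by linarith)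
  rw [Real.one_rpow, one_mul, Real.inv_rpow xpos.le, ← Real.rpow_neg xpos.le] at e5
  exact e5

/-- the abstract conclusion -/
theorem core {κ ε c M r Q b1 A t : ℝ} {U G W W0 p D : ℂ} (M1 : 1 ≤ M) (κ0 : 0 < κ)
    (κ1 : κ ≤ 1 / 3) (hε : 0 < ε) (c0 : 0 < c) (cε : c ≤ ε / 2) (c5 : c ≤ 1 / 5) (r1 : 1 ≤ r)
    (Q1 : 1 ≤ Q) (hb11 : 1 ≤ b1) (ht : 0 ≤ t)
    (hQr : Q ≤ r ^ (1 / 16 : ℝ)) (hbr : b1 ≤ 2 * r ^ (1 / 16 : ℝ))
    (hAeq : A = Q ^ (-κ + ε) * b1 ^ (-κ + ε))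
    (bG : ‖G‖ ≤ M * Q ^ (-κ + ε / 2)) (bp : ‖p‖ ≤ M * Q ^ (-κ + ε / 2))
    (bW : ‖W‖ ≤ M * b1 ^ (-κ)) (bW0 : ‖W0‖ ≤ M * b1 ^ (-κ)) (bD : ‖D‖ ≤ 1)
    (bE : ‖U - G * W‖ ≤ M * r ^ (-(1 / 4) : ℝ))
    (zW : ‖W - W0‖ ≤ M * (r * t)) (zG : ‖G - p‖ ≤ 8 * (Q * t)) (zD : ‖1 - D‖ ≤ 8 * (r * t))
    (zDx : ‖D‖ * (r * t) ≤ 1) (zWx : ‖W‖ ≤ M * (b1 / (1 + r * t))) :
    ‖U‖ ≤ 100 * M ^ 3 * A ∧ ‖W0 * (p * D)‖ ≤ 100 * M ^ 3 * A ∧
    ‖U - W0 * (p * D)‖ ≤ 100 * M ^ 3 * A * ((r * t) ^ c + r ^ (-c)) ∧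
    (1 ≤ r * t → ‖U‖ ≤ 100 * M ^ 3 * A * ((r * t) ^ (-c) + r ^ (-c)) ∧
      ‖W0 * (p * D)‖ ≤ 100 * M ^ 3 * A * ((r * t) ^ (-c) + r ^ (-c))) := by
  have M0 : 0 < M := by linarith
  have r0 : 0 < r := by linarith
  have Q0 : 0 < Q := by linarith
  have hb0 : 0 < b1 := by linarith
  have x0 : 0 ≤ r * t := by positivity
  have A0 : 0 < A := by rw [hAeq]; positivity
  have f1 : Q ^ (-κ + ε / 2) ≤ Q ^ (-κ + ε) :=
    Real.rpow_le_rpow_of_exponent_le Q1 (by linarith)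
  have f2 : b1 ^ (-κ) ≤ b1 ^ (-κ + ε) :=
    Real.rpow_le_rpow_of_exponent_le hb11 (by linarith)
  have bG' : ‖G‖ ≤ M * Q ^ (-κ + ε) := bG.trans (mul_le_mul_of_nonneg_left f1 M0.le)
  have bp' : ‖p‖ ≤ M * Q ^ (-κ + ε) := bp.trans (mul_le_mul_of_nonneg_left f1 M0.le)
  have bW' : ‖W‖ ≤ M * b1 ^ (-κ + ε) := bW.trans (mul_le_mul_of_nonneg_left f2 M0.le)
  have bW0' : ‖W0‖ ≤ M * b1 ^ (-κ + ε) := bW0.trans (mul_le_mul_of_nonneg_left f2 M0.le)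
  have hA2 : (1 / 2) * r ^ (-(1 / 24) : ℝ) ≤ A := by
    rw [hAeq]
    exact Alow hε κ0 κ1 r1 Q1 hb11 hQr hbr
  have hA3 := Alow2 c5 r1 A0 hA2
  have hrc0 : 0 < r ^ (-c) := by positivity
  have hrc : r ^ (-c) ≤ 1 := by
    calc r ^ (-c) ≤ r ^ (0 : ℝ) := Real.rpow_le_rpow_of_exponent_le r1 (by linarith)
      _ = 1 := Real.rpow_zero r
  have MM : M ≤ M ^ 3 := by
    calc M = M ^ 1 := (pow_one M).symm
      _ ≤ M ^ 3 := pow_le_pow_right₀ M1 (by norm_num)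
  have MM2 : M ^ 2 ≤ M ^ 3 := pow_le_pow_right₀ M1 (by norm_num)
  have P0 : 0 < M ^ 3 * A := by positivity
  have bE' : ‖U - G * W‖ ≤ 2 * (M ^ 3 * A) * r ^ (-c) := by
    calc ‖U - G * W‖ ≤ M * r ^ (-(1 / 4) : ℝ) := bE
      _ ≤ M ^ 3 * (2 * A * r ^ (-c)) := mul_le_mul MM hA3 (by positivity) (by positivity)
      _ = 2 * (M ^ 3 * A) * r ^ (-c) := by ring
  have bE1 : ‖U - G * W‖ ≤ 2 * (M ^ 3 * A) := by
    refine bE'.trans ?_
    calc 2 * (M ^ 3 * A) * r ^ (-c) ≤ 2 * (M ^ 3 * A) * 1 :=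
          mul_le_mul_of_nonneg_left hrc (by positivity)
      _ = 2 * (M ^ 3 * A) := by ring
  have bGW : ‖G‖ * ‖W‖ ≤ M ^ 3 * A := by
    calc ‖G‖ * ‖W‖ ≤ (M * Q ^ (-κ + ε)) * (M * b1 ^ (-κ + ε)) :=
          mul_le_mul bG' bW' (norm_nonneg _) (by positivity)
      _ = M ^ 2 * A := by rw [hAeq]; ring
      _ ≤ M ^ 3 * A := mul_le_mul_of_nonneg_right MM2 A0.le
  have bv : ‖W0 * (p * D)‖ ≤ M ^ 3 * A * ‖D‖ := by
    rw [hAeq]
    exact bV M1 Q1 hb11 bp' bW0'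
  have hU := norm_split2 U G W
  refine ⟨?_, ?_, ?_, ?_⟩
  · have : 100 * M ^ 3 * A = 100 * (M ^ 3 * A) := by ring
    rw [this]
    linarith
  · have e1 : M ^ 3 * A * ‖D‖ ≤ M ^ 3 * A * 1 := mul_le_mul_of_nonneg_left bD P0.le
    have : 100 * M ^ 3 * A = 100 * (M ^ 3 * A) := by ring
    rw [this]
    linarith
  · have s1 := t1 (ε := ε) M1 κ0 κ1 c0 cε c5 Q1 hb11 x0 bG' bW bW0 zW
    have s2 := t2 M1 κ0 κ1 c0 cε c5 r1 Q1 hb11 ht hQr bG bp bW0' zG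
    have s3 := t3 M1 c0 c5 Q1 hb11 x0 bp' bW0' bD zD
    rw [← hAeq] at s1 s2 s3
    have s4 := norm_split U G W W0 p D
    have e1 : 0 ≤ M ^ 3 * A * (r * t) ^ c := by positivity
    have e3 : 0 ≤ M ^ 3 * A * r ^ (-c) := by positivity
    have : 100 * M ^ 3 * A * ((r * t) ^ c + r ^ (-c)) =
      100 * (M ^ 3 * A * (r * t) ^ c) + 100 * (M ^ 3 * A * r ^ (-c)) := by ring
    rw [this]
    have q1 : 2 * M ^ 3 * A * (r * t) ^ c = 2 * (M ^ 3 * A * (r * t) ^ c) := by ring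
    have q2 : 16 * M ^ 3 * A * (r * t) ^ c = 16 * (M ^ 3 * A * (r * t) ^ c) := by ring
    have q3 : 8 * M ^ 3 * A * (r * t) ^ c = 8 * (M ^ 3 * A * (r * t) ^ c) := by ring
    have q4 : 2 * (M ^ 3 * A) * r ^ (-c) = 2 * (M ^ 3 * A * r ^ (-c)) := by ring
    rw [q1] at s1
    rw [q2] at s2
    rw [q3] at s3
    rw [q4] at bE'
    linarith
  · intro x1
    have e1 : 0 ≤ M ^ 3 * A * (r * t) ^ (-c) := by positivity
    have e3 : 0 ≤ M ^ 3 * A * r ^ (-c) := by positivity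
    have : 100 * M ^ 3 * A * ((r * t) ^ (-c) + r ^ (-c)) =
      100 * (M ^ 3 * A * (r * t) ^ (-c)) + 100 * (M ^ 3 * A * r ^ (-c)) := by ring
    rw [this]
    constructor
    · have s1 := t4 M1 κ0 κ1 c0 cε c5 Q1 hb11 x1 bG' bW zWx
      rw [← hAeq] at s1
      have q4 : 2 * (M ^ 3 * A) * r ^ (-c) = 2 * (M ^ 3 * A * r ^ (-c)) := by ring
      rw [q4] at bE'
      linarith
    · have s1 := zDi c0 c5 x1 bD zDx
      have s2 : M ^ 3 * A * ‖D‖ ≤ M ^ 3 * A * (r * t) ^ (-c) :=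
        mul_le_mul_of_nonneg_left s1 P0.le
      linarith

theorem thm : G_GB → G_PQ → G_V1 → G_V2 → G_RS → G_ONE := by
  intro hGB hPQ hV1 hV2 hRS k ε hk hε
  obtain ⟨C1, h1⟩ := hGB k (ε / 2) hk (by positivity)
  obtain ⟨C2, h2⟩ := hPQ k (ε / 2) hk (by positivity)
  obtain ⟨C3, h3⟩ := hV1 k (by omega)
  obtain ⟨C4, h4⟩ := hV2 k (by omega)
  obtain ⟨C5, h5⟩ := hRS k (by omega)
  obtain ⟨M, M1, hC1, hC2, hC3, hC4, hC5⟩ : ∃ M : ℝ, 1 ≤ M ∧ C1 ≤ M ∧ C2 ≤ M ∧ C3 ≤ M ∧ C4 ≤ M ∧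
      C5 ≤ M := by
    have a1 := abs_nonneg C1
    have a2 := abs_nonneg C2
    have a3 := abs_nonneg C3
    have a4 := abs_nonneg C4
    have a5 := abs_nonneg C5
    have b1 := le_abs_self C1
    have b2 := le_abs_self C2
    have b3 := le_abs_self C3
    have b4 := le_abs_self C4
    have b5 := le_abs_self C5
    refine ⟨1 + |C1| + |C2| + |C3| + |C4| + |C5|, ?_, ?_, ?_, ?_, ?_, ?_⟩ <;> linarith
  have M0 : 0 < M := by linarith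
  have hkR : (3 : ℝ) ≤ k := by exact_mod_cast hk
  have κ0 : (0 : ℝ) < 1 / (k : ℝ) := by positivity
  have κ1 : 1 / (k : ℝ) ≤ 1 / 3 := one_div_le_one_div_of_le (by norm_num) hkR
  obtain ⟨c, c0, cε, c5⟩ : ∃ c : ℝ, 0 < c ∧ c ≤ ε / 2 ∧ c ≤ 1 / 5 :=
    ⟨min (ε / 2) (1 / 5), lt_min (by positivity) (by norm_num), min_le_left _ _, min_le_right _ _⟩
  have hπ3 : Real.pi ≤ 4 := Real.pi_le_four
  have hπ0 := Real.pi_pos
  refine ⟨100 * M ^ 3, c, c0, ?_⟩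
  intro R q a b B θ hR hq hcop hqR hBR hθ
  have r1 : (1 : ℝ) ≤ (R : ℝ) := by exact_mod_cast hR
  have r0 : (0 : ℝ) < (R : ℝ) := by linarith
  have Q1 : (1 : ℝ) ≤ (q : ℝ) := by exact_mod_cast hq
  have Q0 : (0 : ℝ) < (q : ℝ) := by linarith
  have hB0 := abs_nonneg B
  have hb11 : 1 ≤ 1 + |B| := by linarith
  have hb0 : 0 < 1 + |B| := by linarith
  have r16 : 1 ≤ (R : ℝ) ^ (1 / 16 : ℝ) := Real.one_le_rpow r1 (by norm_num)
  have hθ0 := abs_nonneg θ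
  have hΘ : |(R : ℝ) * θ| = R * |θ| := by rw [abs_mul, abs_of_pos r0]
  have q_le_R : q ≤ R := by
    have : (q : ℝ) ≤ R := by
      calc (q : ℝ) ≤ (R : ℝ) ^ (1 / 16 : ℝ) := hqR
        _ ≤ (R : ℝ) ^ (1 : ℝ) := Real.rpow_le_rpow_of_exponent_le r1 (by norm_num)
        _ = R := Real.rpow_one _
    exact_mod_cast this
  have L1 : 1 ≤ R / q := Nat.div_pos q_le_R (by omega)
  have hqL : ((R / q : ℕ) : ℝ) * q ≤ R := by
    exact_mod_cast Nat.div_mul_le_self R q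
  have hqL2 : (R : ℝ) ≤ 2 * ((R / q : ℕ) : ℝ) * q := by
    have h := Nat.lt_div_mul_add (a := R) (b := q) (by omega)
    have h' : (R : ℝ) < ((R / q : ℕ) : ℝ) * q + q := by
      exact_mod_cast h
    have h'' : (1 : ℝ) ≤ ((R / q : ℕ) : ℝ) := by exact_mod_cast L1
    nlinarith
  have hqθ : |(q : ℝ) * θ| ≤ 1 / 2 := by
    rw [abs_mul, Nat.abs_cast]
    calc (q : ℝ) * |θ| ≤ q * (1 / (2 * q)) := mul_le_mul_of_nonneg_left hθ (by positivity)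
      _ = 1 / 2 := by
        have : (q : ℝ) ≠ 0 := Q0.ne'
        field_simp
  have hv := vv_eq k R q a b B θ hq
  rw [hv]
  have bD : ‖DL (R / q) (q * θ)‖ ≤ 1 := norm_DL_le_one _ _
  have bG : ‖GG k a q b‖ ≤ M * (q : ℝ) ^ (-(1 / (k : ℝ)) + ε / 2) :=
    (h1 q a b hq hcop).trans (mul_le_mul_of_nonneg_right hC1 (by positivity))
  have bp : ‖pq k a q (b / q + θ)‖ ≤ M * (q : ℝ) ^ (-(1 / (k : ℝ)) + ε / 2) :=
    (h2 q a (b / q + θ) hq hcop).trans (mul_le_mul_of_nonneg_right hC2 (by positivity))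
  have bW : ‖VV k B (R * θ)‖ ≤ M * (1 + |B|) ^ (-(1 / (k : ℝ))) :=
    (h3 B (R * θ)).trans (mul_le_mul_of_nonneg_right hC3 (by positivity))
  have bW0 : ‖VV k B 0‖ ≤ M * (1 + |B|) ^ (-(1 / (k : ℝ))) :=
    (h3 B 0).trans (mul_le_mul_of_nonneg_right hC3 (by positivity))
  have bE : ‖uu k R q a B (b / q + θ) - GG k a q b * VV k B (R * θ)‖ ≤
      M * (R : ℝ) ^ (-(1 / 4) : ℝ) :=
    (h5 R q a b B θ hR hq hqR hBR hθ).trans (mul_le_mul_of_nonneg_right hC5 (by positivity))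
  have zW : ‖VV k B (R * θ) - VV k B 0‖ ≤ M * (R * |θ|) := by
    have := (h4 B (R * θ)).2
    rw [hΘ] at this
    exact this.trans (mul_le_mul_of_nonneg_right hC4 (by positivity))
  have zG : ‖GG k a q b - pq k a q (b / q + θ)‖ ≤ 8 * (q * |θ|) := by
    rw [norm_sub_rev]
    refine (norm_pq_sub_GG k q a b θ hq).trans ?_
    have : 0 ≤ (q : ℝ) * |θ| := by positivity
    exact mul_le_mul_of_nonneg_right (by linarith) this
  have zD : ‖1 - DL (R / q) (q * θ)‖ ≤ 8 * (R * |θ|) := by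
    have e1 : ‖1 - DL (R / q) (q * θ)‖ ≤ 2 * Real.pi * (((R / q : ℕ) : ℝ) * |(q : ℝ) * θ|) :=
      norm_one_sub_DL _ L1 _
    have e2 : ((R / q : ℕ) : ℝ) * |(q : ℝ) * θ| ≤ R * |θ| := by
      rw [abs_mul, Nat.abs_cast, ← mul_assoc]
      exact mul_le_mul_of_nonneg_right hqL hθ0
    have e4 : 0 ≤ ((R / q : ℕ) : ℝ) * |(q : ℝ) * θ| := by positivity
    refine e1.trans ?_
    exact mul_le_mul (by linarith) e2 e4 (by norm_num)
  have zDx : ‖DL (R / q) (q * θ)‖ * (R * |θ|) ≤ 1 := by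
    have e1 : ‖DL (R / q) (q * θ)‖ * (2 * ((R / q : ℕ) : ℝ) * |(q : ℝ) * θ|) ≤ 1 :=
      norm_DL_le_inv _ L1 hqθ
    have e2 : R * |θ| ≤ 2 * ((R / q : ℕ) : ℝ) * |(q : ℝ) * θ| := by
      rw [abs_mul, Nat.abs_cast, ← mul_assoc]
      exact mul_le_mul_of_nonneg_right hqL2 hθ0
    exact (mul_le_mul_of_nonneg_left e2 (norm_nonneg _)).trans e1
  have zWx : ‖VV k B (R * θ)‖ ≤ M * ((1 + |B|) / (1 + R * |θ|)) := by
    have := (h4 B (R * θ)).1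
    rw [hΘ] at this
    exact this.trans (mul_le_mul_of_nonneg_right hC4 (by positivity))
  exact core M1 κ0 κ1 hε c0 cε c5 r1 Q1 hb11 hθ0 hqR (by linarith) rfl bG bp bW bW0 bD bE zW zG zD
    zDx zWx

end Pool.Agent.Helper42.KS.PkONE
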