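import Pool.Agent.Helper75.KS.GoalsX

/-!
# SYS: from posets to systems (assuming SYB, FLM)
-/

namespace Pool.Agent.Helper30.KS

open MeasureTheory Filter Topology Finset
open Pool.Agent.Helper44.KS
open Pool.Agent.Helper75.KS
open Pool.Agent.Helper89.GP (LX po Ex Pr hh Ch)

theorem sys (hSYB : SybStmt) (hFLM : FlmStmt) : SysGoal := by
  intro c n R x hc hstd hdev
  choose Z hZS hZ using fun N : ℕ => hSYB (n N) (R N) (x N) c (N : ℝ) hc (hstd N)
  refine ⟨Z, ?_, ?_⟩
  · have h : (fun N => (Z N).S) = fun N => dev (R N) (x N) := funext hZS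
    rw [h]
    exact hdev
  · intro G hG hG2 ε hε
    rw [Metric.tendsto_atTop]
    intro η hη
    obtain ⟨S0, K0, h⟩ := hFLM G ε (η / 2) hG hG2 hε (by linarith)
    obtain ⟨N1, hN1⟩ := exists_nat_ge K0
    obtain ⟨N2, hN2⟩ := (tendsto_atTop_atTop.mp hdev) S0
    refine ⟨max N1 N2, fun N hN => ?_⟩
    have h1 : K0 ≤ (N : ℝ) := hN1.trans (by exact_mod_cast (le_max_left N1 N2).trans hN)
    have h2 : S0 ≤ dev (R N) (x N) := hN2 N ((le_max_right N1 N2).trans hN)
    have h3 := h (n N) (R N) (x N) c (N : ℝ) (hstd N) h1 h2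
    rw [← hZ N G ε hG] at h3
    rw [Real.dist_eq, sub_zero, abs_of_nonneg measureReal_nonneg]
    linarith

end Pool.Agent.Helper30.KS
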